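import Pool.Agent.Helper86.SG.Defs
import Pool.Agent.Helper33.SG.SUN

/-! SG: package BOUND (helper89). -/

open Finset

namespace Pool.Agent.Helper89.SG

open _root_.SG
open _root_.SJ (supp IsV dot fib)

theorem bigIneq (c Q s r μ cp ex : ℕ) (hμ : 2 ^ (s + 1) * (r + 1) ^ 2 * c * Q < μ)
    (h2 : μ.choose (r + 1) ≤ ex) (h3 : cp ≤ 2 ^ s * ((r + 1) * (μ - 1).choose r)) :
    2 * c * Q * cp ≤ ex := by
  refine le_trans ?_ h2
  obtain ⟨m, rfl⟩ : ∃ m, μ = m + 1 := ⟨μ - 1, by omega⟩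
  rw [Nat.add_sub_cancel] at h3
  have h5 : (m + 1) * m.choose r = (m + 1).choose (r + 1) * (r + 1) := Nat.add_one_mul_choose_eq m r
  have h6 : 2 * c * Q * cp * (r + 1) ≤ (m + 1).choose (r + 1) * (r + 1) := by
    rw [← h5]
    calc 2 * c * Q * cp * (r + 1)
        ≤ 2 * c * Q * (2 ^ s * ((r + 1) * m.choose r)) * (r + 1) := by gcongr
      _ = (2 ^ (s + 1) * (r + 1) ^ 2 * c * Q) * m.choose r := by ring
      _ ≤ (m + 1) * m.choose r := Nat.mul_le_mul_right _ hμ.le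
  exact Nat.le_of_mul_le_mul_right h6 (by omega)

theorem bound (hSRC : SRCStm) (hSUM : SUMStm) (hUP : UPStm) (hCLS : CLSStm) (hLOW : LOWStm)
    (hRUL : RULStm) : BOUNDStm := by
  classical
  intro k d hk
  obtain ⟨s, hs⟩ : ∃ s, s = 2 * d + 2 := ⟨_, rfl⟩
  obtain ⟨r, hr⟩ : ∃ r, k = s + (r + 1) := ⟨k - s - 1, by omega⟩
  have hks : k - s = r + 1 := by omega
  obtain ⟨Q, hQ⟩ : ∃ Q, Q = 1 + 2 ^ k := ⟨_, rfl⟩
  obtain ⟨M, hM⟩ : ∃ M, M = 2 ^ (s + 1) * (r + 1) ^ 2 * k.choose s * Q := ⟨_, rfl⟩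
  obtain ⟨C₁, hC1⟩ : ∃ C₁, C₁ = Q * (2 * M.choose (r + 1)) := ⟨_, rfl⟩
  obtain ⟨B, hB⟩ := Pool.Agent.Helper33.SG.sun k s C₁ (by omega)
  refine ⟨C₁ * B, fun n F hF hbig => ?_⟩
  have hV := hF.1
  have hEXcard : ∀ S ∈ EX k d F, #S = k := by
    intro S hS
    unfold EX HH LL at hS
    rw [mem_union, mem_filter, mem_filter, mem_powersetCard] at hS
    rcases hS with hS | hS
    · exact hS.1.2
    · exact hS.1.2
  -- the sets with a clash
  obtain ⟨𝒜, h𝒜⟩ : ∃ 𝒜 : Finset (Finset (Fin n)),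
    𝒜 = (powersetCard s univ).filter (fun A => ∃ v ∈ F, Clash F v A) := ⟨_, rfl⟩
  have hA : ∀ A ∈ 𝒜, #A = s ∧ ∃ v ∈ F, Clash F v A := by
    intro A hA
    rw [h𝒜, mem_filter, mem_powersetCard] at hA
    exact ⟨hA.1.2, hA.2⟩
  have hμ : ∀ A ∈ 𝒜, ∃ μ : ℕ, μ.choose (r + 1) ≤ #(exP k d F A) ∧
      #(cP F A) ≤ 2 ^ s * ((r + 1) * (μ - 1).choose r) ∧ #(cP F A) ≤ μ.choose (r + 1) := by
    intro A hA'
    obtain ⟨hAs, v, hv, hcl⟩ := hA A hA'
    obtain ⟨μ, e1, e2⟩ := hLOW n k d F hk hV A (hAs.trans hs) v hv hcl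
    obtain ⟨e3, e4⟩ := hUP n k d F hk hF A (hAs.trans hs) μ e1
    rw [← hs, hks] at e2 e3 e4
    rw [Nat.add_sub_cancel] at e3
    exact ⟨μ, e2, e3, e4⟩
  choose! μ h2 h3 h4 using hμ
  have hh : #(HH k d F) ≤ ∑ A ∈ 𝒜, #(cP F A) := by
    refine (card_le_card ?_).trans (card_biUnion_le (s := 𝒜) (t := fun A => cP F A))
    intro S hS
    unfold HH at hS
    rw [mem_filter] at hS
    obtain ⟨_, v, hv, hvS, A, hAc, hcl⟩ := hS
    rw [mem_biUnion]
    refine ⟨A, ?_, ?_⟩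
    · rw [h𝒜, mem_filter, mem_powersetCard]
      exact ⟨⟨subset_univ _, hAc.trans hs.symm⟩, v, hv, hcl⟩
    · unfold cP
      rw [mem_image]
      exact ⟨v, mem_filter.2 ⟨hv, hcl⟩, hvS⟩
  have hex : ∑ A ∈ 𝒜, #(exP k d F A) ≤ k.choose s * #(EX k d F) := by
    have e1 : ∑ A ∈ 𝒜, #(exP k d F A) = ∑ S ∈ EX k d F, #(𝒜.filter (fun A => A ⊆ S)) := by
      unfold exP
      simp only [card_filter]
      rw [sum_comm]
    rw [e1, mul_comm, ← smul_eq_mul]
    refine sum_le_card_nsmul _ _ _ fun S hS => ?_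
    have e2 : 𝒜.filter (fun A => A ⊆ S) ⊆ powersetCard s S := by
      intro A hA'
      rw [mem_filter] at hA'
      rw [mem_powersetCard]
      exact ⟨hA'.2, (hA A hA'.1).1⟩
    refine (card_le_card e2).trans ?_
    rw [card_powersetCard, hEXcard S hS]
  have hLL : #(LL k d F) ≤ 2 ^ k * #(HH k d F) := by
    have := hSUM n k d F hk hV
    omega
  have hEX : #(EX k d F) ≤ Q * #(HH k d F) := by
    unfold EX
    refine (card_union_le _ _).trans ?_
    rw [hQ, add_mul, one_mul]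
    omega
  obtain ⟨XX, hXX⟩ : ∃ XX, XX = 𝒜.filter (fun A => μ A ≤ M) := ⟨_, rfl⟩
  have hsplit : ∑ A ∈ 𝒜, #(cP F A) = ∑ A ∈ XX, #(cP F A) +
      ∑ A ∈ 𝒜.filter (fun A => ¬ μ A ≤ M), #(cP F A) := by
    rw [hXX, sum_filter_add_sum_filter_not]
  have hsmall : ∑ A ∈ XX, #(cP F A) ≤ #XX * M.choose (r + 1) := by
    rw [← smul_eq_mul]
    refine sum_le_card_nsmul _ _ _ fun A hA' => ?_
    rw [hXX, mem_filter] at hA'
    exact (h4 A hA'.1).trans (Nat.choose_le_choose _ hA'.2)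
  have hbigs : 2 * k.choose s * Q * ∑ A ∈ 𝒜.filter (fun A => ¬ μ A ≤ M), #(cP F A) ≤
      k.choose s * Q * #(HH k d F) := by
    calc 2 * k.choose s * Q * ∑ A ∈ 𝒜.filter (fun A => ¬ μ A ≤ M), #(cP F A)
        = ∑ A ∈ 𝒜.filter (fun A => ¬ μ A ≤ M), 2 * k.choose s * Q * #(cP F A) := by
          rw [mul_sum]
      _ ≤ ∑ A ∈ 𝒜.filter (fun A => ¬ μ A ≤ M), #(exP k d F A) := by
          refine sum_le_sum fun A hA' => ?_
          rw [mem_filter, not_le, hM] at hA'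
          exact bigIneq _ _ _ _ _ _ _ hA'.2 (h2 A hA'.1) (h3 A hA'.1)
      _ ≤ ∑ A ∈ 𝒜, #(exP k d F A) := sum_le_sum_of_subset (filter_subset _ _)
      _ ≤ k.choose s * #(EX k d F) := hex
      _ ≤ k.choose s * (Q * #(HH k d F)) := Nat.mul_le_mul_left _ hEX
      _ = k.choose s * Q * #(HH k d F) := by ring
  have hcQ : 0 < k.choose s * Q := by
    have : 0 < k.choose s := Nat.choose_pos (by omega)
    have : 0 < Q := by rw [hQ]; positivity
    positivity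
  have hhalf : 2 * ∑ A ∈ 𝒜.filter (fun A => ¬ μ A ≤ M), #(cP F A) ≤ #(HH k d F) := by
    refine Nat.le_of_mul_le_mul_left ?_ hcQ
    calc k.choose s * Q * (2 * ∑ A ∈ 𝒜.filter (fun A => ¬ μ A ≤ M), #(cP F A))
        = 2 * k.choose s * Q * ∑ A ∈ 𝒜.filter (fun A => ¬ μ A ≤ M), #(cP F A) := by ring
      _ ≤ _ := hbigs
  have hh2 : #(HH k d F) ≤ 2 * (#XX * M.choose (r + 1)) := by omega
  have hle : #(EX k d F) ≤ C₁ * #XX := by
    refine hEX.trans ?_
    calc Q * #(HH k d F) ≤ Q * (2 * (#XX * M.choose (r + 1))) := Nat.mul_le_mul_left _ hh2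
      _ = C₁ * #XX := by rw [hC1]; ring
  rcases isEmpty_or_nonempty (Fin n) with hemp | hne
  · have : EX k d F = ∅ := by
      rw [eq_empty_iff_forall_notMem]
      intro S hS
      have e1 := hEXcard S hS
      have e2 : S = ∅ := Finset.eq_empty_of_isEmpty S
      rw [e2, card_empty] at e1
      omega
    rw [this, card_empty]
    exact Nat.zero_le _
  · have hsel : ∀ S : Finset (Fin n), ∃ f : Fin n, #S = k → S ∉ EX k d F → ∃ c, Str k d F S f c := by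
      intro S
      by_cases h : #S = k ∧ S ∉ EX k d F
      · obtain ⟨f, c, hc⟩ := (hSRC n k d F hk hV S h.1).2 h.2
        exact ⟨f, fun _ _ => ⟨c, hc⟩⟩
      · exact ⟨hne.some, fun e1 e2 => absurd ⟨e1, e2⟩ h⟩
    choose f hf using hsel
    have hnotHH : ∀ S, S ∉ EX k d F → S ∉ HH k d F := by
      intro S hS h
      exact hS (by unfold EX; exact mem_union_left _ h)
    have H : Pool.Agent.Helper33.SG.Hyp k s C₁ (EX k d F) XX f := by
      refine ⟨hEXcard, ?_, ?_, ?_, ?_, hle⟩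
      · intro X hX
        rw [hXX, mem_filter] at hX
        exact (hA X hX.1).1
      · intro S e1 e2
        obtain ⟨c, hc⟩ := hf S e1 e2
        exact hc.1
      · intro S S' e1 e1' e2 e2' e3 e4 e5
        obtain ⟨c, hc⟩ := hf S e1 e2
        obtain ⟨c', hc'⟩ := hf S' e1' e2'
        exact (hRUL n k d F hk hV S S' e1 e1' (hnotHH S e2) (by omega) _ _ c c' hc hc').1 e4 e5
      · intro X hX S e1 e2 e3 e4
        rw [hXX, mem_filter] at hX
        obtain ⟨hXs, v, hv, hcl⟩ := hA X hX.1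
        obtain ⟨c, hc⟩ := hf S e1 e2
        have := hCLS n k d F hk hV X (hXs.trans hs) v hv hcl S e1 (hnotHH S e2) e3 _ c hc
        unfold DD at this
        rw [mem_filter] at this
        exact this.2.1 e4
    exact hle.trans (Nat.mul_le_mul_left _ (hB _ _ _ f H))

end Pool.Agent.Helper89.SG
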